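import Pool.Agent.TH609.NP.Strip

set_option autoImplicit false

/-!
# Job 49 (MP_f4a5f6_an), part 2: limits of the flux
-/

open MeasureTheory Set Filter Topology

namespace Pool.Agent.TH609.NP
open Pool.Agent.TH268.NP

section bounds
variable {ψ : ℝ → ℝ} (hψ : Prof ψ)
include hψ

lemma lip : ∃ M : ℝ, 0 ≤ M ∧ ∀ s t, |ψ s - ψ t| ≤ M * |s - t| := by
  obtain ⟨M, hM0, hM⟩ := hψ.deriv_bdd
  refine ⟨M, hM0, fun s t => ?_⟩
  have := convex_univ.norm_image_sub_le_of_norm_deriv_le (f := ψ) (C := M)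
    (fun x _ => hψ.diff x) (fun x _ => hM x) (mem_univ t) (mem_univ s)
  simpa using this

/-- lower bound of the singular denominator -/
lemma den_ge : ∃ c : ℝ, 0 < c ∧ ∀ t s x, x ∈ Icc (0 : ℝ) 1 →
    c * ((s - t) ^ 2 + (1 - x) ^ 2) ≤ Real.cosh (s - t) - Real.cos (ψ t - ψ s * x) := by
  obtain ⟨M, hM0, hM⟩ := lip hψ
  refine ⟨1 / (32 * (1 + M ^ 2)), by positivity, fun t s x hx => ?_⟩
  have hpi := Real.pi_pos
  have hpi3 := Real.pi_gt_three
  have hpi4 := Real.pi_le_four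
  have ht1 := hψ.lo t
  have ht2 := hψ.hi t
  have hs1 := hψ.lo s
  have hs2 := hψ.hi s
  set a := s - t with ha
  set y := ψ t - ψ s * x with hy
  have hsx0 : 0 ≤ ψ s * x := mul_nonneg (by linarith) hx.1
  have hsx1 : ψ s * x ≤ ψ s := mul_le_of_le_one_right (by linarith) hx.2
  have hyb : |y| ≤ Real.pi := by
    rw [abs_le]
    constructor <;> linarith
  have hcos := Real.cos_le_one_sub_mul_cos_sq hyb
  have hcosh := cosh_ge a
  -- the quadratic inequality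
  have h1 : ψ t * (1 - x) = y + x * (ψ s - ψ t) := by rw [hy]; ring
  have h2 : (x * (ψ s - ψ t)) ^ 2 ≤ M ^ 2 * a ^ 2 := by
    have h3 : |x * (ψ s - ψ t)| ≤ M * |a| := by
      rw [abs_mul, abs_of_nonneg hx.1]
      calc x * |ψ s - ψ t| ≤ 1 * |ψ s - ψ t| := by
            apply mul_le_mul_of_nonneg_right hx.2 (abs_nonneg _)
        _ = |ψ s - ψ t| := one_mul _
        _ ≤ M * |a| := hM s t
    rw [← sq_abs, ← sq_abs a, ← mul_pow]
    exact pow_le_pow_left₀ (abs_nonneg _) h3 2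
  have h4 : (ψ t * (1 - x)) ^ 2 ≤ 2 * y ^ 2 + 2 * (M ^ 2 * a ^ 2) := by
    rw [h1]
    nlinarith [sq_nonneg (y - x * (ψ s - ψ t))]
  have h5 : (Real.pi / 4) ^ 2 * (1 - x) ^ 2 ≤ (ψ t * (1 - x)) ^ 2 := by
    rw [mul_pow]
    gcongr
  have h6 : (Real.pi / 4) ^ 2 * (1 - x) ^ 2 ≤ 2 * (1 + M ^ 2) * (y ^ 2 + a ^ 2) := by
    nlinarith [mul_nonneg (sq_nonneg M) (sq_nonneg y), sq_nonneg a]
  have hD : 2 / Real.pi ^ 2 * (a ^ 2 + y ^ 2) ≤ Real.cosh a - Real.cos y := by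
    have h7 : 2 / Real.pi ^ 2 ≤ 1 / 2 := by
      rw [div_le_iff₀ (by positivity)]
      nlinarith
    have h8 : 2 / Real.pi ^ 2 * a ^ 2 ≤ 1 / 2 * a ^ 2 := by
      exact mul_le_mul_of_nonneg_right h7 (sq_nonneg a)
    nlinarith
  refine le_trans ?_ hD
  have hK : 0 < 1 + M ^ 2 := by positivity
  have e1 : (1 - x) ^ 2 ≤ 32 * (1 + M ^ 2) / Real.pi ^ 2 * (y ^ 2 + a ^ 2) := by
    have : (1 - x) ^ 2 = 16 / Real.pi ^ 2 * ((Real.pi / 4) ^ 2 * (1 - x) ^ 2) := by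
      field_simp
      norm_num
    rw [this]
    calc 16 / Real.pi ^ 2 * ((Real.pi / 4) ^ 2 * (1 - x) ^ 2)
        ≤ 16 / Real.pi ^ 2 * (2 * (1 + M ^ 2) * (y ^ 2 + a ^ 2)) := by gcongr
      _ = 32 * (1 + M ^ 2) / Real.pi ^ 2 * (y ^ 2 + a ^ 2) := by ring
  have e2 : a ^ 2 ≤ 32 * (1 + M ^ 2) / Real.pi ^ 2 * (y ^ 2 + a ^ 2) := by
    have h9 : 1 ≤ 32 * (1 + M ^ 2) / Real.pi ^ 2 := by
      rw [one_le_div (by positivity)]
      nlinarith [sq_nonneg M]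
    have : 0 ≤ y ^ 2 + a ^ 2 := by positivity
    nlinarith [sq_nonneg y]
  rw [div_mul_eq_mul_div, one_mul, div_le_iff₀ (by positivity)]
  have e3 : 2 / Real.pi ^ 2 * (a ^ 2 + y ^ 2) * (32 * (1 + M ^ 2)) =
      2 * (32 * (1 + M ^ 2) / Real.pi ^ 2 * (y ^ 2 + a ^ 2)) := by ring
  rw [e3]
  linarith

/-- the other denominator is larger -/
lemma den_le (t s : ℝ) {x : ℝ} (hx : x ∈ Icc (0 : ℝ) 1) :
    Real.cosh (s - t) - Real.cos (ψ t - ψ s * x) ≤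
      Real.cosh (s - t) - Real.cos (ψ t + ψ s * x) ∧
    Real.cosh (s - t) - Real.cos (ψ t + ψ s * x) ≤
      Real.cosh (s - t) - Real.cos (ψ t - ψ s * x) + 2 := by
  have hpi := Real.pi_pos
  have hs1 := hψ.lo s
  have hs2 := hψ.hi s
  have hsx0 : 0 ≤ ψ s * x := mul_nonneg (by linarith) hx.1
  have hsx1 : ψ s * x ≤ ψ s := mul_le_of_le_one_right (by linarith) hx.2
  have h1 := hψ.sin_pos t
  have h2 : 0 ≤ Real.sin (ψ s * x) := Real.sin_nonneg_of_nonneg_of_le_pi hsx0 (by linarith)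
  have h3 := Real.sin_le_one (ψ t)
  have h4 := Real.sin_le_one (ψ s * x)
  rw [Real.cos_add, Real.cos_sub]
  constructor
  · nlinarith
  · nlinarith

lemma u_bound {t s x : ℝ} (hs : s ≠ t) (hx : x ∈ Icc (0 : ℝ) 1) :
    0 ≤ u ψ t s x ∧
    u ψ t s x ≤ 8 * (2 / (Real.cosh (s - t) - Real.cos (ψ t - ψ s * x))) ^ (1 / 8 : ℝ) ∧
    u ψ t s x ≤ 2 / (Real.cosh (s - t) - Real.cos (ψ t - ψ s * x)) := by
  obtain ⟨h1, h2⟩ := den_le hψ t s hx
  have h3 := den_pos hs (ψ t - ψ s * x)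
  have h4 := den_pos hs (ψ t + ψ s * x)
  unfold u LL
  set A := Real.cosh (s - t) - Real.cos (ψ t + ψ s * x)
  set B := Real.cosh (s - t) - Real.cos (ψ t - ψ s * x)
  rw [← Real.log_div h4.ne' h3.ne']
  have e1 : A / B = 1 + (A - B) / B := by field_simp; ring
  have e2 : 0 ≤ (A - B) / B := div_nonneg (by linarith) h3.le
  have e3 : (A - B) / B ≤ 2 / B := by gcongr; linarith
  refine ⟨?_, ?_, ?_⟩
  · apply Real.log_nonneg
    rw [e1]; linarith
  · rw [e1]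
    refine (log_one_add_le e2).trans ?_
    gcongr
  · rw [e1]
    have := Real.log_le_sub_one_of_pos (x := 1 + (A - B) / B) (by positivity)
    linarith

lemma us_bound {t s x : ℝ} (hs : s ≠ t) (hx : x ∈ Icc (0 : ℝ) 1) :
    |us ψ t s x| ≤ 2 * |Real.sinh (s - t)| / (Real.cosh (s - t) - Real.cos (ψ t - ψ s * x)) := by
  obtain ⟨h1, h2⟩ := den_le hψ t s hx
  have h3 := den_pos hs (ψ t - ψ s * x)
  have h4 := den_pos hs (ψ t + ψ s * x)
  unfold us La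
  set A := Real.cosh (s - t) - Real.cos (ψ t + ψ s * x)
  set B := Real.cosh (s - t) - Real.cos (ψ t - ψ s * x)
  refine (abs_sub _ _).trans ?_
  rw [abs_div, abs_div, abs_of_pos h3, abs_of_pos h4]
  have : |Real.sinh (s - t)| / A ≤ |Real.sinh (s - t)| / B := by gcongr
  calc |Real.sinh (s - t)| / A + |Real.sinh (s - t)| / B
      ≤ |Real.sinh (s - t)| / B + |Real.sinh (s - t)| / B := by linarith
    _ = 2 * |Real.sinh (s - t)| / B := by ring

end bounds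

end Pool.Agent.TH609.NP
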