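import Pool.Agent.TH609.NP.Lim

set_option autoImplicit false

/-!
# Job 49 (MP_f4a5f6_an), part 3: one-sided limits of the flux at the poles
-/

open MeasureTheory Set Filter Topology

namespace Pool.Agent.TH609.NP
open Pool.Agent.TH268.NP

section cont
variable {ψ : ℝ → ℝ} (hψ : Prof ψ) {t s : ℝ}

lemma u_cont_x (h : s ≠ t) : Continuous (fun x => u ψ t s x) :=
  continuous_iff_continuousAt.2 fun x => (u_x h x).continuousAt

lemma us_cont_x (h : s ≠ t) : Continuous (fun x => us ψ t s x) :=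
  continuous_iff_continuousAt.2 fun x => (us_x h x).continuousAt

include hψ

/-- continuity in `s`, if the denominator does not vanish -/
lemma u_cont_s {x : ℝ} (h1 : Real.cosh (s - t) - Real.cos (ψ t - ψ s * x) ≠ 0)
    (h2 : Real.cosh (s - t) - Real.cos (ψ t + ψ s * x) ≠ 0) :
    ContinuousAt (fun s => u ψ t s x) s := by
  have := hψ.cont
  unfold u LL
  refine ContinuousAt.sub (ContinuousAt.log ?_ h2) (ContinuousAt.log ?_ h1)
  · fun_prop
  · fun_prop

lemma us_cont_s {x : ℝ} (h1 : Real.cosh (s - t) - Real.cos (ψ t - ψ s * x) ≠ 0)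
    (h2 : Real.cosh (s - t) - Real.cos (ψ t + ψ s * x) ≠ 0) :
    ContinuousAt (fun s => us ψ t s x) s := by
  have := hψ.cont
  unfold us La
  refine ContinuousAt.sub (ContinuousAt.div₀ ?_ ?_ h2) (ContinuousAt.div₀ ?_ ?_ h1)
  · fun_prop
  · fun_prop
  · fun_prop
  · fun_prop

/-- at the abscissa of the pole the denominators do not vanish below the curve -/
lemma den_self {x : ℝ} (hx0 : 0 ≤ x) (hx : x < 1) :
    0 < Real.cosh (t - t) - Real.cos (ψ t - ψ t * x) ∧
    0 < Real.cosh (t - t) - Real.cos (ψ t + ψ t * x) := by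
  obtain ⟨c, hc, hcb⟩ := den_ge hψ
  have h1 := hcb t t x ⟨hx0, hx.le⟩
  have h2 := (den_le hψ t t (x := x) ⟨hx0, hx.le⟩).1
  have h3 : 0 < 1 - x := by linarith
  have h4 : 0 < c * ((t - t) ^ 2 + (1 - x) ^ 2) := by positivity
  exact ⟨lt_of_lt_of_le h4 h1, lt_of_lt_of_le (lt_of_lt_of_le h4 h1) h2⟩

end cont

section lims
variable {ψ : ℝ → ℝ} (hψ : Prof ψ) {t r : ℝ} (htr : t ≠ r)
include hψ htr

/-- bounds of everything that is regular near `t` -/
lemma reg_bound : ∃ C : ℝ, 0 ≤ C ∧ ∀ᶠ s in 𝓝 t, s ≠ r ∧ ∀ x ∈ Icc (0 : ℝ) 1,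
    |us ψ r s x| ≤ C ∧ |up ψ r s x| ≤ C := by
  have hδ : 0 < |t - r| / 2 := by
    have := abs_pos.2 (sub_ne_zero.2 htr)
    positivity
  have hK : IsCompact (Metric.closedBall t (|t - r| / 2) ×ˢ Icc (0 : ℝ) 1) :=
    (isCompact_closedBall _ _).prod isCompact_Icc
  have hne : ∀ s ∈ Metric.closedBall t (|t - r| / 2), s ≠ r := by
    intro s hs h
    rw [h, Metric.mem_closedBall, Real.dist_eq, abs_sub_comm] at hs
    linarith
  obtain ⟨C1, hC1⟩ := hK.exists_bound_of_continuousOn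
    (f := fun p : ℝ × ℝ => us ψ r p.1 p.2)
    (fun p hp => (us_diff hψ (hne p.1 hp.1)).continuousAt.continuousWithinAt)
  obtain ⟨C2, hC2⟩ := hK.exists_bound_of_continuousOn
    (f := fun p : ℝ × ℝ => up ψ r p.1 p.2)
    (fun p hp => (up_diff hψ (hne p.1 hp.1)).continuousAt.continuousWithinAt)
  refine ⟨max (max C1 C2) 0, le_max_right _ _, ?_⟩
  filter_upwards [Metric.closedBall_mem_nhds t hδ] with s hs
  refine ⟨hne s hs, fun x hx => ⟨?_, ?_⟩⟩
  · exact (hC1 (s, x) ⟨hs, hx⟩).trans ((le_max_left _ _).trans (le_max_left _ _))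
  · exact (hC2 (s, x) ⟨hs, hx⟩).trans ((le_max_right _ _).trans (le_max_left _ _))

omit hψ htr in
lemma intble_pow : IntervalIntegrable (fun x : ℝ => (1 - x) ^ (-(1 / 4) : ℝ)) volume 0 1 := by
  have h1 := intervalIntegral.intervalIntegrable_rpow' (r := (-(1 / 4) : ℝ)) (a := 1) (b := 0)
    (by norm_num)
  have h2 := h1.comp_sub_left 1
  simpa using h2

omit hψ htr in
lemma ae_ne_one : ∀ᵐ x : ℝ ∂volume, x ≠ 1 := by
  have : ({1}ᶜ : Set ℝ) ∈ ae (volume : Measure ℝ) := compl_mem_ae_iff.2 (measure_singleton 1)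
  exact this

/-- the regular half of the flux -/
lemma limA : Tendsto (fun s => ∫ x in (0 : ℝ)..1, ψ s * (u ψ t s x * us ψ r s x)) (𝓝[≠] t)
    (𝓝 (∫ x in (0 : ℝ)..1, ψ t * (u ψ t t x * us ψ r t x))) := by
  obtain ⟨C, hC0, hC⟩ := reg_bound hψ htr
  obtain ⟨c, hc, hcb⟩ := den_ge hψ
  have hC' := nhdsWithin_le_nhds (s := {t}ᶜ) hC
  have hne : ∀ᶠ s in 𝓝[≠] t, s ≠ t := self_mem_nhdsWithin
  refine intervalIntegral.tendsto_integral_filter_of_dominated_convergence
    (fun x => 2 * (8 * (2 / c) ^ (1 / 8 : ℝ) * (1 - x) ^ (-(1 / 4) : ℝ) * C)) ?_ ?_ ?_ ?_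
  · filter_upwards [hC', hne] with s hs hst
    have h1 := u_cont_x (ψ := ψ) hst
    have h2 := us_cont_x (ψ := ψ) hs.1
    exact (by fun_prop : Continuous fun x => ψ s * (u ψ t s x * us ψ r s x)).aestronglyMeasurable
  · filter_upwards [hC', hne] with s hs hst
    filter_upwards [ae_ne_one] with x hx1 hx
    rw [uIoc_of_le zero_le_one] at hx
    have hx' : x ∈ Icc (0 : ℝ) 1 := ⟨hx.1.le, hx.2⟩
    have hx1 : x < 1 := lt_of_le_of_ne hx.2 hx1
    obtain ⟨hu0, hu1, -⟩ := u_bound hψ hst hx'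
    have hu2 := (hs.2 x hx').1
    have hpi := Real.pi_lt_four
    have hs1 := hψ.lo s
    have hs2 := hψ.hi s
    have hpi0 := Real.pi_pos
    rw [norm_mul, norm_mul, Real.norm_eq_abs, Real.norm_eq_abs, Real.norm_eq_abs,
      abs_of_nonneg hu0, abs_of_nonneg (by linarith : 0 ≤ ψ s)]
    have h1x : 0 < 1 - x := by linarith
    have hd := hcb t s x hx'
    have hd2 : c * (1 - x) ^ 2 ≤ Real.cosh (s - t) - Real.cos (ψ t - ψ s * x) := by
      refine le_trans ?_ hd
      have := sq_nonneg (s - t)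
      nlinarith
    have hu3 : u ψ t s x ≤ 8 * (2 / c) ^ (1 / 8 : ℝ) * (1 - x) ^ (-(1 / 4) : ℝ) := by
      refine hu1.trans ?_
      have h3 : 2 / (Real.cosh (s - t) - Real.cos (ψ t - ψ s * x)) ≤ 2 / (c * (1 - x) ^ 2) := by
        gcongr
      have h4 : (2 / (c * (1 - x) ^ 2)) ^ (1 / 8 : ℝ) =
          (2 / c) ^ (1 / 8 : ℝ) * (1 - x) ^ (-(1 / 4) : ℝ) := by
        rw [show 2 / (c * (1 - x) ^ 2) = (2 / c) * ((1 - x) ^ 2)⁻¹ by field_simp,
          Real.mul_rpow (by positivity) (by positivity)]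
        congr 1
        rw [← Real.rpow_natCast, ← Real.rpow_neg h1x.le, ← Real.rpow_mul h1x.le]
        norm_num
      have h5 : (2 / (Real.cosh (s - t) - Real.cos (ψ t - ψ s * x))) ^ (1 / 8 : ℝ) ≤
          (2 / (c * (1 - x) ^ 2)) ^ (1 / 8 : ℝ) := by
        have := den_pos hst (ψ t - ψ s * x)
        gcongr
      rw [mul_assoc, ← h4]
      linarith
    have : ψ s ≤ 2 := by linarith
    gcongr
  · have := intble_pow.const_mul (2 * (8 * (2 / c) ^ (1 / 8 : ℝ)) * C)
    refine this.congr ?_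
    intro x _
    simp only
    ring
  · filter_upwards [ae_ne_one] with x hx1 hx
    rw [uIoc_of_le zero_le_one] at hx
    have hx1 : x < 1 := lt_of_le_of_ne hx.2 hx1
    obtain ⟨h1, h2⟩ := den_self hψ (t := t) hx.1.le hx1
    have h3 := u_cont_s hψ (t := t) (s := t) h1.ne' h2.ne'
    have h4 := us_cont_s hψ (t := r) (s := t) (x := x) (den_ne htr _) (den_ne htr _)
    have h5 := hψ.cont.continuousAt (x := t)
    have h6 : ContinuousAt (fun s => ψ s * (u ψ t s x * us ψ r s x)) t := by fun_prop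
    exact h6.tendsto.mono_left nhdsWithin_le_nhds

omit hψ htr in
lemma abs_sinh_le {a : ℝ} (ha : |a| ≤ 1) : |Real.sinh a| ≤ 2 * |a| := by
  have h1 : Convex ℝ (Metric.closedBall (0 : ℝ) 1) := convex_closedBall _ _
  have h2 := h1.norm_image_sub_le_of_norm_deriv_le (f := Real.sinh) (C := 2)
    (fun x _ => Real.differentiable_sinh x) (fun x hx => by
      rw [Real.deriv_sinh, Real.norm_eq_abs, abs_of_pos (Real.cosh_pos x)]
      apply cosh_le_two
      simpa using hx) (Metric.mem_closedBall_self zero_le_one)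
      (show a ∈ Metric.closedBall (0 : ℝ) 1 by simpa using ha)
  simpa using h2

/-- the non-constant part of the singular half -/
lemma limB : Tendsto (fun s => ∫ x in (0 : ℝ)..1,
    ψ s * ((u ψ r s x - u ψ r s 1) * us ψ t s x)) (𝓝[≠] t) (𝓝 0) := by
  obtain ⟨C, hC0, hC⟩ := reg_bound hψ htr
  obtain ⟨c, hc, hcb⟩ := den_ge hψ
  have hC' := nhdsWithin_le_nhds (s := {t}ᶜ) hC
  have hne : ∀ᶠ s in 𝓝[≠] t, s ≠ t := self_mem_nhdsWithin
  have hnear : ∀ᶠ s in 𝓝[≠] t, |s - t| ≤ 1 := by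
    apply nhdsWithin_le_nhds
    have := Metric.closedBall_mem_nhds t (zero_lt_one : (0 : ℝ) < 1)
    filter_upwards [this] with s hs
    simpa [Real.dist_eq] using hs
  suffices hsuff : Tendsto (fun s => ∫ x in (0 : ℝ)..1,
      ψ s * ((u ψ r s x - u ψ r s 1) * us ψ t s x)) (𝓝[≠] t) (𝓝 (∫ _ in (0 : ℝ)..1, (0 : ℝ))) by
    simpa using hsuff
  refine intervalIntegral.tendsto_integral_filter_of_dominated_convergence
    (fun _ => 2 * (2 * C * (2 / c))) ?_ ?_ ?_ ?_
  · filter_upwards [hC', hne] with s hs hst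
    have h1 := u_cont_x (ψ := ψ) hs.1
    have h2 := us_cont_x (ψ := ψ) hst
    exact (by fun_prop : Continuous fun x =>
      ψ s * ((u ψ r s x - u ψ r s 1) * us ψ t s x)).aestronglyMeasurable
  · filter_upwards [hC', hne, hnear] with s hs hst hs1
    filter_upwards [ae_ne_one] with x hx1 hx
    rw [uIoc_of_le zero_le_one] at hx
    have hx' : x ∈ Icc (0 : ℝ) 1 := ⟨hx.1.le, hx.2⟩
    have hx1 : x < 1 := lt_of_le_of_ne hx.2 hx1
    have h1x : 0 < 1 - x := by linarith
    have hpi := Real.pi_lt_four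
    have hpi0 := Real.pi_pos
    have hl := hψ.lo s
    have hh := hψ.hi s
    have hs2 : ψ s ≤ 2 := by linarith
    have hs0 : 0 ≤ ψ s := by linarith
    have ha : 0 < |s - t| := abs_pos.2 (sub_ne_zero.2 hst)
    -- the Lipschitz factor
    have hL : |u ψ r s x - u ψ r s 1| ≤ 2 * C * (1 - x) := by
      have h1 := (convex_Icc (0 : ℝ) 1).norm_image_sub_le_of_norm_hasDerivWithin_le
        (f := fun x => u ψ r s x) (f' := fun x => up ψ r s x * ψ s) (C := C * 2)
        (fun y _ => (u_x hs.1 y).hasDerivWithinAt)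
        (fun y hy => by
          rw [norm_mul, Real.norm_eq_abs, Real.norm_eq_abs, abs_of_nonneg hs0]
          exact mul_le_mul (hs.2 y hy).2 hs2 hs0 hC0)
        (right_mem_Icc.2 zero_le_one) hx'
      rw [Real.norm_eq_abs, Real.norm_eq_abs, abs_sub_comm x 1, abs_of_pos h1x] at h1
      linarith
    have hU : |us ψ t s x| * (1 - x) ≤ 2 / c := by
      have hd := hcb t s x hx'
      have h1 := us_bound hψ hst hx'
      have h2 := den_pos hst (ψ t - ψ s * x)
      have h3 : 2 * c * |s - t| * (1 - x) ≤ Real.cosh (s - t) - Real.cos (ψ t - ψ s * x) := by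
        refine le_trans ?_ hd
        have h4 : (s - t) ^ 2 = |s - t| ^ 2 := (sq_abs _).symm
        rw [h4]
        nlinarith [sq_nonneg (|s - t| - (1 - x))]
      have h5 := abs_sinh_le hs1
      rw [le_div_iff₀ hc]
      have h6 : |us ψ t s x| * (Real.cosh (s - t) - Real.cos (ψ t - ψ s * x)) ≤ 4 * |s - t| := by
        rw [le_div_iff₀ h2] at h1
        linarith
      have h7 : |us ψ t s x| * (2 * c * |s - t| * (1 - x)) ≤ 4 * |s - t| :=
        le_trans (mul_le_mul_of_nonneg_left h3 (abs_nonneg _)) h6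
      have h8 : (2 * |s - t|) * (|us ψ t s x| * (1 - x) * c) ≤ (2 * |s - t|) * 2 := by
        linarith
      exact le_of_mul_le_mul_left h8 (by positivity)
    rw [norm_mul, norm_mul, Real.norm_eq_abs, Real.norm_eq_abs, Real.norm_eq_abs,
      abs_of_nonneg hs0]
    have h9 : |u ψ r s x - u ψ r s 1| * |us ψ t s x| ≤ 2 * C * (2 / c) := by
      calc |u ψ r s x - u ψ r s 1| * |us ψ t s x| ≤ (2 * C * (1 - x)) * |us ψ t s x| := by gcongr
        _ = 2 * C * (|us ψ t s x| * (1 - x)) := by ring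
        _ ≤ 2 * C * (2 / c) := by gcongr
    gcongr
  · exact intervalIntegrable_const
  · filter_upwards [ae_ne_one] with x hx1 hx
    rw [uIoc_of_le zero_le_one] at hx
    have hx1 : x < 1 := lt_of_le_of_ne hx.2 hx1
    obtain ⟨h1, h2⟩ := den_self hψ (t := t) hx.1.le hx1
    have h3 := us_cont_s hψ (t := t) (s := t) h1.ne' h2.ne'
    have h4 := u_cont_s hψ (t := r) (s := t) (x := x) (den_ne htr _) (den_ne htr _)
    have h4' := u_cont_s hψ (t := r) (s := t) (x := 1) (den_ne htr _) (den_ne htr _)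
    have h5 := hψ.cont.continuousAt (x := t)
    have h6 : ContinuousAt (fun s => ψ s * ((u ψ r s x - u ψ r s 1) * us ψ t s x)) t := by
      fun_prop
    have h7 := h6.tendsto.mono_left (nhdsWithin_le_nhds (s := {t}ᶜ))
    have h8 : us ψ t t x = 0 := by simp [us, La]
    simpa [h8] using h7

end lims

end Pool.Agent.TH609.NP
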