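import Pool.Agent.TH609.NP.Lim2

set_option autoImplicit false

/-!
# Job 49 (MP_f4a5f6_an), part 4: the jump of the flux
-/

open MeasureTheory Set Filter Topology

namespace Pool.Agent.TH609.NP
open Pool.Agent.TH268.NP

section kap

/-- `coth ((s - t) / 2)` -/
noncomputable def kap (t s : ℝ) : ℝ := Real.cosh ((s - t) / 2) / Real.sinh ((s - t) / 2)

lemma sinh_half_ne {t s : ℝ} (h : s ≠ t) : Real.sinh ((s - t) / 2) ≠ 0 := by
  rw [Ne, Real.sinh_eq_zero]
  intro h0
  apply h
  linarith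

lemma La_half {a z : ℝ} (ha : Real.sinh (a / 2) ≠ 0) :
    La a (2 * z) = Real.cosh (a / 2) * Real.sinh (a / 2) /
      (Real.sinh (a / 2) ^ 2 + Real.sin z ^ 2) := by
  unfold La
  have h1 : Real.sinh a = 2 * Real.sinh (a / 2) * Real.cosh (a / 2) := by
    rw [← Real.sinh_two_mul]; congr 1; ring
  have h2 : Real.cosh a = 1 + 2 * Real.sinh (a / 2) ^ 2 := by
    have := Real.cosh_two_mul (a / 2)
    rw [show 2 * (a / 2) = a by ring, Real.cosh_sq] at this
    linarith
  have h3 : Real.cos (2 * z) = 1 - 2 * Real.sin z ^ 2 := by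
    rw [Real.cos_two_mul, Real.cos_sq']
    ring
  have h4 : 0 < Real.sinh (a / 2) ^ 2 := by positivity
  have h5 : Real.sinh (a / 2) ^ 2 + Real.sin z ^ 2 ≠ 0 := by positivity
  have h6 : 1 + 2 * Real.sinh (a / 2) ^ 2 - (1 - 2 * Real.sin z ^ 2) ≠ 0 := by
    have : 0 < 1 + 2 * Real.sinh (a / 2) ^ 2 - (1 - 2 * Real.sin z ^ 2) := by
      have := sq_nonneg (Real.sin z)
      linarith
    exact this.ne'
  rw [h1, h2, h3]
  field_simp
  ring

/-- antiderivative of the Poisson kernel -/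
lemma arctan_deriv {a z : ℝ} (ha : Real.sinh (a / 2) ≠ 0) (hz : Real.cos z ≠ 0) :
    HasDerivAt (fun z => Real.arctan (Real.cosh (a / 2) / Real.sinh (a / 2) * Real.tan z))
      (La a (2 * z)) z := by
  have h1 := ((Real.hasDerivAt_tan hz).const_mul
    (Real.cosh (a / 2) / Real.sinh (a / 2))).arctan
  refine h1.congr_deriv ?_
  rw [La_half ha]
  have h4 : 0 < Real.sinh (a / 2) ^ 2 := by positivity
  have h5 : Real.sinh (a / 2) ^ 2 + Real.sin z ^ 2 ≠ 0 := by positivity
  rw [Real.tan_eq_sin_div_cos]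
  have hc := Real.cosh_sq (a / 2)
  have hs := Real.sin_sq_add_cos_sq z
  have h6 : Real.sinh (a / 2) ^ 2 * Real.cos z ^ 2 + Real.cosh (a / 2) ^ 2 * Real.sin z ^ 2 =
      Real.sinh (a / 2) ^ 2 + Real.sin z ^ 2 := by
    rw [hc]
    linear_combination Real.sinh (a / 2) ^ 2 * hs
  have h7 : 1 + (Real.cosh (a / 2) / Real.sinh (a / 2) * (Real.sin z / Real.cos z)) ^ 2 =
      (Real.sinh (a / 2) ^ 2 + Real.sin z ^ 2) / (Real.sinh (a / 2) ^ 2 * Real.cos z ^ 2) := by
    rw [← h6]
    field_simp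
  rw [h7]
  field_simp

end kap

section lims
variable {ψ : ℝ → ℝ} (hψ : Prof ψ) {t : ℝ}
include hψ

lemma arg_mem {t s x : ℝ} (hx : x ∈ Icc (0 : ℝ) 1) :
    -(Real.pi / 2) < (ψ t - ψ s * x) / 2 ∧ (ψ t - ψ s * x) / 2 < Real.pi / 2 := by
  have hpi := Real.pi_pos
  have ht1 := hψ.lo t
  have ht2 := hψ.hi t
  have hs1 := hψ.lo s
  have hs2 := hψ.hi s
  have hsx0 : 0 ≤ ψ s * x := mul_nonneg (by linarith) hx.1
  have hsx1 : ψ s * x ≤ ψ s := mul_le_of_le_one_right (by linarith) hx.2
  constructor <;> linarith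

/-- the explicit integral -/
lemma int_minus {s : ℝ} (hs : s ≠ t) : ∫ x in (0 : ℝ)..1, ψ s * La (s - t) (ψ t - ψ s * x) =
    2 * Real.arctan (kap t s * Real.tan (ψ t / 2)) -
      2 * Real.arctan (kap t s * Real.tan ((ψ t - ψ s) / 2)) := by
  have hsh := sinh_half_ne hs
  have key := intervalIntegral.integral_eq_sub_of_hasDerivAt (a := (0 : ℝ)) (b := 1)
    (f := fun x => -(2 * Real.arctan (kap t s * Real.tan ((ψ t - ψ s * x) / 2))))
    (f' := fun x => ψ s * La (s - t) (ψ t - ψ s * x)) ?_ ?_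
  · rw [key]
    simp only [mul_one, mul_zero, sub_zero]
    ring
  · intro x hx
    rw [uIcc_of_le zero_le_one] at hx
    obtain ⟨h1, h2⟩ := arg_mem hψ (t := t) (s := s) hx
    have hz : Real.cos ((ψ t - ψ s * x) / 2) ≠ 0 := (Real.cos_pos_of_mem_Ioo ⟨h1, h2⟩).ne'
    have hi : HasDerivAt (fun x : ℝ => (ψ t - ψ s * x) / 2) (-ψ s / 2) x := by
      have := (((hasDerivAt_id x).const_mul (ψ s)).const_sub (ψ t)).div_const 2
      simpa using this
    have h3 := (arctan_deriv (a := s - t) hsh hz).comp x hi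
    have h4 := (h3.const_mul 2).neg
    refine h4.congr_deriv ?_
    rw [show 2 * ((ψ t - ψ s * x) / 2) = ψ t - ψ s * x by ring]
    ring
  · have h3 : Continuous (fun x => La (s - t) (ψ t - ψ s * x)) := by
      unfold La
      exact Continuous.div (by fun_prop) (by fun_prop) (fun x => den_ne hs _)
    exact (h3.const_mul (ψ s)).intervalIntegrable _ _

lemma lim_plus : Tendsto (fun s => ∫ x in (0 : ℝ)..1, ψ s * La (s - t) (ψ t + ψ s * x)) (𝓝 t)
    (𝓝 0) := by
  have hpi := Real.pi_pos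
  have hc : Real.cos (Real.pi / 4) < 1 := by
    rw [← Real.cos_zero]
    exact Real.cos_lt_cos_of_nonneg_of_le_pi le_rfl (by linarith) (by linarith)
  have hd : 0 < 1 - Real.cos (Real.pi / 4) := by linarith
  refine squeeze_zero_norm
    (a := fun s => 2 * (|Real.sinh (s - t)| / (1 - Real.cos (Real.pi / 4))) * |1 - 0|) ?_ ?_
  · intro s
    apply intervalIntegral.norm_integral_le_of_norm_le_const
    intro x hx
    rw [uIoc_of_le zero_le_one] at hx
    have ht1 := hψ.lo t
    have ht2 := hψ.hi t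
    have hs1 := hψ.lo s
    have hs2 := hψ.hi s
    have hpi4 := Real.pi_lt_four
    have hsx0 : 0 ≤ ψ s * x := mul_nonneg (by linarith) hx.1.le
    have hsx1 : ψ s * x ≤ ψ s := mul_le_of_le_one_right (by linarith) hx.2
    have h1 : Real.cos (ψ t + ψ s * x) ≤ Real.cos (Real.pi / 4) :=
      Real.cos_le_cos_of_nonneg_of_le_pi (by linarith) (by linarith) (by linarith)
    have h2 := Real.one_le_cosh (s - t)
    have h3 : 1 - Real.cos (Real.pi / 4) ≤ Real.cosh (s - t) - Real.cos (ψ t + ψ s * x) := by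
      linarith
    rw [norm_mul, Real.norm_eq_abs, Real.norm_eq_abs, abs_of_nonneg (by linarith : 0 ≤ ψ s)]
    unfold La
    have h0 := lt_of_lt_of_le hd h3
    rw [abs_div, abs_of_pos h0]
    have : ψ s ≤ 2 := by linarith
    refine mul_le_mul this ?_ (by positivity) (by norm_num)
    gcongr
  · have h1 : Continuous (fun s : ℝ =>
        2 * (|Real.sinh (s - t)| / (1 - Real.cos (Real.pi / 4))) * |(1 : ℝ) - 0|) := by
      fun_prop
    have h2 := h1.tendsto t
    simpa using h2

lemma kap_tan_lim : Tendsto (fun s => kap t s * Real.tan ((ψ t - ψ s) / 2)) (𝓝[≠] t)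
    (𝓝 (-deriv ψ t)) := by
  have hd := (hψ.diff t).hasDerivAt
  have h1 : HasDerivAt (fun s => Real.tan ((ψ t - ψ s) / 2)) (-deriv ψ t / 2) t := by
    have h2 : HasDerivAt (fun s => (ψ t - ψ s) / 2) (-deriv ψ t / 2) t :=
      (hd.const_sub (ψ t)).div_const 2
    have h3 : Real.cos ((ψ t - ψ t) / 2) ≠ 0 := by simp
    have h4 := (Real.hasDerivAt_tan h3).comp t h2
    refine h4.congr_deriv ?_
    simp
  have h2 : HasDerivAt (fun s => Real.sinh ((s - t) / 2)) (1 / 2) t := by
    have h3 : HasDerivAt (fun s => (s - t) / 2) (1 / 2) t :=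
      ((hasDerivAt_id t).sub_const t).div_const 2
    refine h3.sinh.congr_deriv ?_
    simp
  rw [hasDerivAt_iff_tendsto_slope] at h1 h2
  have h3 : Tendsto (fun s => Real.cosh ((s - t) / 2)) (𝓝[≠] t) (𝓝 1) := by
    have : Continuous (fun s => Real.cosh ((s - t) / 2)) := by fun_prop
    have h4 := (this.tendsto t).mono_left (nhdsWithin_le_nhds (s := {t}ᶜ))
    simpa using h4
  have h4 := h3.mul (h1.div h2 (by norm_num))
  have h5 : 1 * (-deriv ψ t / 2 / (1 / 2)) = -deriv ψ t := by ring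
  rw [h5] at h4
  refine h4.congr' ?_
  filter_upwards [self_mem_nhdsWithin] with s hs
  have hs' : s ≠ t := hs
  have h6 := sinh_half_ne hs'
  have h7 : s - t ≠ 0 := sub_ne_zero.2 hs'
  simp only [Pi.div_apply, slope_def_field, sub_self, zero_div, Real.tan_zero, Real.sinh_zero,
    sub_zero, kap]
  field_simp

lemma tan_pos_half : 0 < Real.tan (ψ t / 2) := by
  have hpi := Real.pi_pos
  have ht1 := hψ.lo t
  have ht2 := hψ.hi t
  exact Real.tan_pos_of_pos_of_lt_pi_div_two (by linarith) (by linarith)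

lemma kap_right : Tendsto (fun s => 2 * Real.arctan (kap t s * Real.tan (ψ t / 2))) (𝓝[>] t)
    (𝓝 Real.pi) := by
  have h0 : Tendsto (fun s => Real.sinh ((s - t) / 2)) (𝓝[>] t) (𝓝[>] 0) := by
    apply tendsto_nhdsWithin_of_tendsto_nhds_of_eventually_within
    · have : Continuous (fun s => Real.sinh ((s - t) / 2)) := by fun_prop
      have h4 := (this.tendsto t).mono_left (nhdsWithin_le_nhds (s := Ioi t))
      simpa using h4
    · filter_upwards [self_mem_nhdsWithin] with s hs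
      have hs' : t < s := hs
      exact Real.sinh_pos_iff.2 (by linarith)
  have h1 : Tendsto (fun s => Real.cosh ((s - t) / 2) * Real.tan (ψ t / 2)) (𝓝[>] t)
      (𝓝 (Real.tan (ψ t / 2))) := by
    have : Continuous (fun s => Real.cosh ((s - t) / 2) * Real.tan (ψ t / 2)) := by fun_prop
    have h4 := (this.tendsto t).mono_left (nhdsWithin_le_nhds (s := Ioi t))
    simpa using h4
  have h2 := h1.pos_mul_atTop (tan_pos_half hψ) (tendsto_inv_nhdsGT_zero.comp h0)
  have h3 := (Real.tendsto_arctan_atTop.mono_right nhdsWithin_le_nhds).comp h2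
  have h4 := h3.const_mul 2
  rw [show 2 * (Real.pi / 2) = Real.pi by ring] at h4
  refine h4.congr fun s => ?_
  simp only [Function.comp_apply, kap]
  congr 2
  ring

lemma kap_left : Tendsto (fun s => 2 * Real.arctan (kap t s * Real.tan (ψ t / 2))) (𝓝[<] t)
    (𝓝 (-Real.pi)) := by
  have h0 : Tendsto (fun s => Real.sinh ((s - t) / 2)) (𝓝[<] t) (𝓝[<] 0) := by
    apply tendsto_nhdsWithin_of_tendsto_nhds_of_eventually_within
    · have : Continuous (fun s => Real.sinh ((s - t) / 2)) := by fun_prop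
      have h4 := (this.tendsto t).mono_left (nhdsWithin_le_nhds (s := Iio t))
      simpa using h4
    · filter_upwards [self_mem_nhdsWithin] with s hs
      have hs' : s < t := hs
      exact Real.sinh_neg_iff.2 (by linarith)
  have h1 : Tendsto (fun s => Real.cosh ((s - t) / 2) * Real.tan (ψ t / 2)) (𝓝[<] t)
      (𝓝 (Real.tan (ψ t / 2))) := by
    have : Continuous (fun s => Real.cosh ((s - t) / 2) * Real.tan (ψ t / 2)) := by fun_prop
    have h4 := (this.tendsto t).mono_left (nhdsWithin_le_nhds (s := Iio t))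
    simpa using h4
  have h2 := h1.pos_mul_atBot (tan_pos_half hψ) (tendsto_inv_nhdsLT_zero.comp h0)
  have h3 := (Real.tendsto_arctan_atBot.mono_right nhdsWithin_le_nhds).comp h2
  have h4 := h3.const_mul 2
  rw [show 2 * -(Real.pi / 2) = -Real.pi by ring] at h4
  refine h4.congr fun s => ?_
  simp only [Function.comp_apply, kap]
  congr 2
  ring

omit hψ in
/-- splitting of the flux -/
lemma XX_split {r s : ℝ} (hst : s ≠ t) (hsr : s ≠ r) : XX ψ t r s =
    (∫ x in (0 : ℝ)..1, ψ s * (u ψ t s x * us ψ r s x)) -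
    (∫ x in (0 : ℝ)..1, ψ s * ((u ψ r s x - u ψ r s 1) * us ψ t s x)) -
    u ψ r s 1 * ((∫ x in (0 : ℝ)..1, ψ s * La (s - t) (ψ t + ψ s * x)) -
      ∫ x in (0 : ℝ)..1, ψ s * La (s - t) (ψ t - ψ s * x)) := by
  have h1 := u_cont_x (ψ := ψ) hst
  have h2 := us_cont_x (ψ := ψ) hst
  have h3 := u_cont_x (ψ := ψ) hsr
  have h4 := us_cont_x (ψ := ψ) hsr
  have h5 : Continuous (fun x => La (s - t) (ψ t - ψ s * x)) := by
    unfold La
    exact Continuous.div (by fun_prop) (by fun_prop) (fun x => den_ne hst _)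
  have h6 : Continuous (fun x => La (s - t) (ψ t + ψ s * x)) := by
    unfold La
    exact Continuous.div (by fun_prop) (by fun_prop) (fun x => den_ne hst _)
  rw [← intervalIntegral.integral_sub (Continuous.intervalIntegrable (by fun_prop) _ _)
      (Continuous.intervalIntegrable (by fun_prop) _ _),
    ← intervalIntegral.integral_sub (Continuous.intervalIntegrable (by fun_prop) _ _)
      (Continuous.intervalIntegrable (by fun_prop) _ _),
    ← intervalIntegral.integral_const_mul,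
    ← intervalIntegral.integral_sub (Continuous.intervalIntegrable (by fun_prop) _ _)
      (Continuous.intervalIntegrable (by fun_prop) _ _)]
  unfold XX
  refine intervalIntegral.integral_congr fun x _ => ?_
  simp only [Phi, FF]
  have : us ψ t s x = La (s - t) (ψ t + ψ s * x) - La (s - t) (ψ t - ψ s * x) := rfl
  rw [this]
  ring

/-- the one-sided limits -/
theorem XX_lim {r : ℝ} (htr : t ≠ r) : ∃ a c : ℝ,
    Tendsto (XX ψ t r) (𝓝[>] t) (𝓝 (a - u ψ r t 1 * (c - Real.pi))) ∧
    Tendsto (XX ψ t r) (𝓝[<] t) (𝓝 (a - u ψ r t 1 * (c + Real.pi))) := by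
  have hA := limA hψ htr
  have hB := limB hψ htr
  have hP := lim_plus hψ (t := t)
  have hK := kap_tan_lim hψ (t := t)
  have hR := kap_right hψ (t := t)
  have hL := kap_left hψ (t := t)
  have hU : Tendsto (fun s => u ψ r s 1) (𝓝 t) (𝓝 (u ψ r t 1)) :=
    (u_cont_s hψ (t := r) (s := t) (x := 1) (den_ne htr _) (den_ne htr _)).tendsto
  set A := ∫ x in (0 : ℝ)..1, ψ t * (u ψ t t x * us ψ r t x) with hAdef
  have hK2 : Tendsto (fun s => 2 * Real.arctan (kap t s * Real.tan ((ψ t - ψ s) / 2))) (𝓝[≠] t)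
      (𝓝 (2 * Real.arctan (-deriv ψ t))) :=
    ((Real.continuous_arctan.tendsto _).comp hK).const_mul 2
  have hev : ∀ᶠ s in 𝓝[≠] t, XX ψ t r s =
      (∫ x in (0 : ℝ)..1, ψ s * (u ψ t s x * us ψ r s x)) -
      (∫ x in (0 : ℝ)..1, ψ s * ((u ψ r s x - u ψ r s 1) * us ψ t s x)) -
      u ψ r s 1 * ((∫ x in (0 : ℝ)..1, ψ s * La (s - t) (ψ t + ψ s * x)) -
        (2 * Real.arctan (kap t s * Real.tan (ψ t / 2)) -
      2 * Real.arctan (kap t s * Real.tan ((ψ t - ψ s) / 2)))) := by
    have h1 : ∀ᶠ s in 𝓝[≠] t, s ≠ r := by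
      apply nhdsWithin_le_nhds
      exact isOpen_ne.mem_nhds htr
    filter_upwards [h1, self_mem_nhdsWithin] with s hs1 hs2
    rw [XX_split hs2 hs1, int_minus hψ hs2]
  refine ⟨A, 2 * Real.arctan (-deriv ψ t), ?_, ?_⟩
  · have hsub : 𝓝[>] t ≤ 𝓝[≠] t := nhdsWithin_mono _ (fun x (hx : t < x) => hx.ne')
    have h1 := ((hA.mono_left hsub).sub (hB.mono_left hsub)).sub
      ((hU.mono_left nhdsWithin_le_nhds).mul
        ((hP.mono_left nhdsWithin_le_nhds).sub (hR.sub (hK2.mono_left hsub))))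
    have h2 := h1.congr' ((hev.filter_mono hsub).mono fun s hs => hs.symm)
    convert h2 using 2
    ring
  · have hsub : 𝓝[<] t ≤ 𝓝[≠] t := nhdsWithin_mono _ (fun x (hx : x < t) => hx.ne)
    have h1 := ((hA.mono_left hsub).sub (hB.mono_left hsub)).sub
      ((hU.mono_left nhdsWithin_le_nhds).mul
        ((hP.mono_left nhdsWithin_le_nhds).sub (hL.sub (hK2.mono_left hsub))))
    have h2 := h1.congr' ((hev.filter_mono hsub).mono fun s hs => hs.symm)
    convert h2 using 2
    ring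

end lims

end Pool.Agent.TH609.NP
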