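import Pool.Agent.TH268.NP.Bd2

set_option autoImplicit false

/-!
# Job 49 (MP_f4a5f6_an), part 1: the Green function along the curve
-/

open MeasureTheory Set Filter Topology

namespace Pool.Agent.TH609.NP
open Pool.Agent.TH268.NP

noncomputable def LL (a y : ℝ) : ℝ := Real.log (Real.cosh a - Real.cos y)
noncomputable def La (a y : ℝ) : ℝ := Real.sinh a / (Real.cosh a - Real.cos y)
noncomputable def Ly (a y : ℝ) : ℝ := Real.sin y / (Real.cosh a - Real.cos y)
noncomputable def Laa (a y : ℝ) : ℝ :=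
  (1 - Real.cosh a * Real.cos y) / (Real.cosh a - Real.cos y) ^ 2
noncomputable def Lay (a y : ℝ) : ℝ :=
  -(Real.sinh a * Real.sin y) / (Real.cosh a - Real.cos y) ^ 2

section comp
variable {f g : ℝ → ℝ} {f' g' s : ℝ}

lemma den_comp (hf : HasDerivAt f f' s) (hg : HasDerivAt g g' s) :
    HasDerivAt (fun s => Real.cosh (f s) - Real.cos (g s))
      (Real.sinh (f s) * f' + Real.sin (g s) * g') s := by
  have h1 := hf.cosh
  have h2 := hg.cos
  exact (h1.sub h2).congr_deriv (by ring)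

lemma LL_comp (hf : HasDerivAt f f' s) (hg : HasDerivAt g g' s)
    (h : Real.cosh (f s) - Real.cos (g s) ≠ 0) :
    HasDerivAt (fun s => LL (f s) (g s)) (La (f s) (g s) * f' + Ly (f s) (g s) * g') s := by
  have h1 := (den_comp hf hg).log h
  refine h1.congr_deriv ?_
  unfold La Ly
  field_simp

lemma La_comp (hf : HasDerivAt f f' s) (hg : HasDerivAt g g' s)
    (h : Real.cosh (f s) - Real.cos (g s) ≠ 0) :
    HasDerivAt (fun s => La (f s) (g s)) (Laa (f s) (g s) * f' + Lay (f s) (g s) * g') s := by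
  have h1 := hf.sinh.div (den_comp hf hg) h
  refine h1.congr_deriv ?_
  have h2 := Real.cosh_sq (f s)
  unfold Laa Lay
  field_simp
  linear_combination f' * h2

lemma Ly_comp (hf : HasDerivAt f f' s) (hg : HasDerivAt g g' s)
    (h : Real.cosh (f s) - Real.cos (g s) ≠ 0) :
    HasDerivAt (fun s => Ly (f s) (g s)) (Lay (f s) (g s) * f' - Laa (f s) (g s) * g') s := by
  have h1 := hg.sin.div (den_comp hf hg) h
  refine h1.congr_deriv ?_
  have h2 := Real.sin_sq_add_cos_sq (g s)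
  unfold Laa Lay
  field_simp
  linear_combination (-g') * h2

end comp

section curve
variable (ψ : ℝ → ℝ)

/-- the Green function with pole at `(t, ψ t)` in the coordinates `(s, x)`, `φ = ψ s * x` -/
noncomputable def u (t s x : ℝ) : ℝ := LL (s - t) (ψ t + ψ s * x) - LL (s - t) (ψ t - ψ s * x)
noncomputable def us (t s x : ℝ) : ℝ := La (s - t) (ψ t + ψ s * x) - La (s - t) (ψ t - ψ s * x)
noncomputable def up (t s x : ℝ) : ℝ := Ly (s - t) (ψ t + ψ s * x) + Ly (s - t) (ψ t - ψ s * x)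
noncomputable def uss (t s x : ℝ) : ℝ :=
  Laa (s - t) (ψ t + ψ s * x) - Laa (s - t) (ψ t - ψ s * x)
noncomputable def usp (t s x : ℝ) : ℝ :=
  Lay (s - t) (ψ t + ψ s * x) + Lay (s - t) (ψ t - ψ s * x)

lemma den_ne {t s : ℝ} (h : s ≠ t) (y : ℝ) : Real.cosh (s - t) - Real.cos y ≠ 0 := by
  have h1 := cosh_sub_one_pos (sub_ne_zero.2 h)
  have h2 := Real.cos_le_one y
  have : 0 < Real.cosh (s - t) - Real.cos y := by linarith
  exact this.ne'

lemma den_pos {t s : ℝ} (h : s ≠ t) (y : ℝ) : 0 < Real.cosh (s - t) - Real.cos y := by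
  have h1 := cosh_sub_one_pos (sub_ne_zero.2 h)
  have h2 := Real.cos_le_one y
  linarith

variable {ψ} (hψ : Prof ψ) {t s : ℝ} (h : s ≠ t) (x : ℝ)
include hψ h

lemma u_s : HasDerivAt (fun s => u ψ t s x) (us ψ t s x + up ψ t s x * (deriv ψ s * x)) s := by
  have hd := (hψ.diff s).hasDerivAt
  have hf : HasDerivAt (fun s => s - t) 1 s := (hasDerivAt_id s).sub_const t
  have h1 : HasDerivAt (fun s => ψ t + ψ s * x) (deriv ψ s * x) s := (hd.mul_const x).const_add _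
  have h2 : HasDerivAt (fun s => ψ t - ψ s * x) (-(deriv ψ s * x)) s := (hd.mul_const x).const_sub _
  have h3 := (LL_comp hf h1 (den_ne h _)).sub (LL_comp hf h2 (den_ne h _))
  refine h3.congr_deriv ?_
  unfold us up
  ring

lemma us_s : HasDerivAt (fun s => us ψ t s x) (uss ψ t s x + usp ψ t s x * (deriv ψ s * x)) s := by
  have hd := (hψ.diff s).hasDerivAt
  have hf : HasDerivAt (fun s => s - t) 1 s := (hasDerivAt_id s).sub_const t
  have h1 : HasDerivAt (fun s => ψ t + ψ s * x) (deriv ψ s * x) s := (hd.mul_const x).const_add _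
  have h2 : HasDerivAt (fun s => ψ t - ψ s * x) (-(deriv ψ s * x)) s := (hd.mul_const x).const_sub _
  have h3 := (La_comp hf h1 (den_ne h _)).sub (La_comp hf h2 (den_ne h _))
  refine h3.congr_deriv ?_
  unfold uss usp
  ring

omit hψ in
lemma u_x : HasDerivAt (fun x => u ψ t s x) (up ψ t s x * ψ s) x := by
  have hf : HasDerivAt (fun _ : ℝ => s - t) 0 x := hasDerivAt_const x _
  have h1 : HasDerivAt (fun x => ψ t + ψ s * x) (ψ s) x := by
    simpa using ((hasDerivAt_id x).const_mul (ψ s)).const_add (ψ t)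
  have h2 : HasDerivAt (fun x => ψ t - ψ s * x) (-ψ s) x := by
    simpa using ((hasDerivAt_id x).const_mul (ψ s)).const_sub (ψ t)
  have h3 := (LL_comp hf h1 (den_ne h _)).sub (LL_comp hf h2 (den_ne h _))
  refine h3.congr_deriv ?_
  unfold up
  ring

omit hψ in
lemma us_x : HasDerivAt (fun x => us ψ t s x) (usp ψ t s x * ψ s) x := by
  have hf : HasDerivAt (fun _ : ℝ => s - t) 0 x := hasDerivAt_const x _
  have h1 : HasDerivAt (fun x => ψ t + ψ s * x) (ψ s) x := by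
    simpa using ((hasDerivAt_id x).const_mul (ψ s)).const_add (ψ t)
  have h2 : HasDerivAt (fun x => ψ t - ψ s * x) (-ψ s) x := by
    simpa using ((hasDerivAt_id x).const_mul (ψ s)).const_sub (ψ t)
  have h3 := (La_comp hf h1 (den_ne h _)).sub (La_comp hf h2 (den_ne h _))
  refine h3.congr_deriv ?_
  unfold usp
  ring

omit hψ in
lemma up_x : HasDerivAt (fun x => up ψ t s x) (-(uss ψ t s x * ψ s)) x := by
  have hf : HasDerivAt (fun _ : ℝ => s - t) 0 x := hasDerivAt_const x _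
  have h1 : HasDerivAt (fun x => ψ t + ψ s * x) (ψ s) x := by
    simpa using ((hasDerivAt_id x).const_mul (ψ s)).const_add (ψ t)
  have h2 : HasDerivAt (fun x => ψ t - ψ s * x) (-ψ s) x := by
    simpa using ((hasDerivAt_id x).const_mul (ψ s)).const_sub (ψ t)
  have h3 := (Ly_comp hf h1 (den_ne h _)).add (Ly_comp hf h2 (den_ne h _))
  refine h3.congr_deriv ?_
  unfold uss
  ring

end curve

section two

lemma La_diff {f g : ℝ × ℝ → ℝ} {p : ℝ × ℝ} (hf : DifferentiableAt ℝ f p)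
    (hg : DifferentiableAt ℝ g p) (h : Real.cosh (f p) - Real.cos (g p) ≠ 0) :
    DifferentiableAt ℝ (fun q => La (f q) (g q)) p := by
  have h1 : DifferentiableAt ℝ (fun q => Real.sinh (f q)) p := by fun_prop
  have h2 : DifferentiableAt ℝ (fun q => Real.cosh (f q) - Real.cos (g q)) p := by fun_prop
  exact h1.mul (h2.inv h)

lemma Ly_diff {f g : ℝ × ℝ → ℝ} {p : ℝ × ℝ} (hf : DifferentiableAt ℝ f p)
    (hg : DifferentiableAt ℝ g p) (h : Real.cosh (f p) - Real.cos (g p) ≠ 0) :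
    DifferentiableAt ℝ (fun q => Ly (f q) (g q)) p := by
  have h1 : DifferentiableAt ℝ (fun q => Real.sin (g q)) p := by fun_prop
  have h2 : DifferentiableAt ℝ (fun q => Real.cosh (f q) - Real.cos (g q)) p := by fun_prop
  exact h1.mul (h2.inv h)

lemma LL_diff {f g : ℝ × ℝ → ℝ} {p : ℝ × ℝ} (hf : DifferentiableAt ℝ f p)
    (hg : DifferentiableAt ℝ g p) (h : Real.cosh (f p) - Real.cos (g p) ≠ 0) :
    DifferentiableAt ℝ (fun q => LL (f q) (g q)) p :=
  DifferentiableAt.log (by fun_prop) h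

variable {ψ : ℝ → ℝ} (hψ : Prof ψ) {t : ℝ} {p : ℝ × ℝ} (h : p.1 ≠ t)
include hψ h

lemma u_diff : DifferentiableAt ℝ (fun q : ℝ × ℝ => u ψ t q.1 q.2) p := by
  have := hψ.diff
  exact (LL_diff (by fun_prop) (by fun_prop) (den_ne h _)).sub
    (LL_diff (by fun_prop) (by fun_prop) (den_ne h _))

lemma us_diff : DifferentiableAt ℝ (fun q : ℝ × ℝ => us ψ t q.1 q.2) p := by
  have := hψ.diff
  exact (La_diff (by fun_prop) (by fun_prop) (den_ne h _)).sub
    (La_diff (by fun_prop) (by fun_prop) (den_ne h _))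

lemma up_diff : DifferentiableAt ℝ (fun q : ℝ × ℝ => up ψ t q.1 q.2) p := by
  have := hψ.diff
  exact (Ly_diff (by fun_prop) (by fun_prop) (den_ne h _)).add
    (Ly_diff (by fun_prop) (by fun_prop) (den_ne h _))

end two

section green
variable (ψ : ℝ → ℝ)

/-- `u v_s - v u_s` -/
noncomputable def FF (t r s x : ℝ) : ℝ := u ψ t s x * us ψ r s x - u ψ r s x * us ψ t s x

noncomputable def Phi (t r s x : ℝ) : ℝ := ψ s * FF ψ t r s x

noncomputable def ZZ (t r s x : ℝ) : ℝ :=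
  -(u ψ t s x * up ψ r s x - u ψ r s x * up ψ t s x) + deriv ψ s * x * FF ψ t r s x

noncomputable def Phi' (t r s x : ℝ) : ℝ :=
  deriv ψ s * FF ψ t r s x + ψ s * (u ψ t s x * uss ψ r s x - u ψ r s x * uss ψ t s x) +
    ψ s * deriv ψ s * x * (up ψ t s x * us ψ r s x + u ψ t s x * usp ψ r s x
      - up ψ r s x * us ψ t s x - u ψ r s x * usp ψ t s x)

/-- the flux -/
noncomputable def XX (t r s : ℝ) : ℝ := ∫ x in (0 : ℝ)..1, Phi ψ t r s x

variable {ψ} (hψ : Prof ψ) {t r s : ℝ} (ht : s ≠ t) (hr : s ≠ r) (x : ℝ)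
include hψ ht hr

lemma Phi_s : HasDerivAt (fun s => Phi ψ t r s x) (Phi' ψ t r s x) s := by
  have hd := (hψ.diff s).hasDerivAt
  have h1 := hd.mul (((u_s hψ ht x).mul (us_s hψ hr x)).sub ((u_s hψ hr x).mul (us_s hψ ht x)))
  refine h1.congr_deriv ?_
  simp only [Pi.mul_apply, Pi.sub_apply]
  unfold Phi' FF
  ring

lemma ZZ_x : HasDerivAt (fun x => ZZ ψ t r s x) (Phi' ψ t r s x) x := by
  have h0 : HasDerivAt (fun x : ℝ => deriv ψ s * x) (deriv ψ s) x := by
    simpa using (hasDerivAt_id x).const_mul (deriv ψ s)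
  have ut := u_x (ψ := ψ) ht x
  have ur := u_x (ψ := ψ) hr x
  have upt := up_x (ψ := ψ) ht x
  have upr := up_x (ψ := ψ) hr x
  have ust := us_x (ψ := ψ) ht x
  have usr := us_x (ψ := ψ) hr x
  have h1 := ((ut.mul upr).sub (ur.mul upt)).neg.add
    (h0.mul ((ut.mul usr).sub (ur.mul ust)))
  refine h1.congr_deriv ?_
  simp only [Pi.mul_apply, Pi.sub_apply]
  unfold Phi' FF
  ring

end green

section green2
variable {ψ : ℝ → ℝ} (hψ : Prof ψ) {t r : ℝ}
include hψ

lemma Phi_diff {p : ℝ × ℝ} (ht : p.1 ≠ t) (hr : p.1 ≠ r) :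
    DifferentiableAt ℝ (fun q : ℝ × ℝ => Phi ψ t r q.1 q.2) p := by
  have := hψ.diff
  have h1 := u_diff hψ ht
  have h2 := u_diff hψ hr
  have h3 := us_diff hψ ht
  have h4 := us_diff hψ hr
  unfold Phi FF
  fun_prop

lemma ZZ_diff {p : ℝ × ℝ} (ht : p.1 ≠ t) (hr : p.1 ≠ r) :
    DifferentiableAt ℝ (fun q : ℝ × ℝ => ZZ ψ t r q.1 q.2) p := by
  have hdd : Differentiable ℝ (deriv ψ) := hψ.contDeriv.differentiable (by simp)
  have h1 := u_diff hψ ht
  have h2 := u_diff hψ hr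
  have h3 := us_diff hψ ht
  have h4 := us_diff hψ hr
  have h5 := up_diff hψ ht
  have h6 := up_diff hψ hr
  unfold ZZ FF
  fun_prop

/-- Green's identity between two abscissas -/
theorem green {a b : ℝ} (ht : t ∉ uIcc a b) (hr : r ∉ uIcc a b) :
    XX ψ t r b - XX ψ t r a = ∫ s in a..b, ZZ ψ t r s 1 := by
  have hmem : ∀ p ∈ uIcc a b ×ˢ uIcc (0 : ℝ) 1, p.1 ≠ t ∧ p.1 ≠ r := by
    intro p hp
    refine ⟨fun h => ht ?_, fun h => hr ?_⟩
    · rw [← h]; exact hp.1
    · rw [← h]; exact hp.1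
  have hmem' : ∀ p ∈ Ioo (min a b) (max a b) ×ˢ Ioo (min (0 : ℝ) 1) (max 0 1) \ (∅ : Set (ℝ × ℝ)),
      p.1 ≠ t ∧ p.1 ≠ r := by
    intro p hp
    apply hmem
    exact ⟨⟨hp.1.1.1.le, hp.1.1.2.le⟩, ⟨hp.1.2.1.le, hp.1.2.2.le⟩⟩
  have hzero : ∀ p : ℝ × ℝ, p.1 ≠ t → p.1 ≠ r →
      fderiv ℝ (fun q : ℝ × ℝ => Phi ψ t r q.1 q.2) p (1, 0) +
      fderiv ℝ (fun q : ℝ × ℝ => -ZZ ψ t r q.1 q.2) p (0, 1) = 0 := by
    intro p h1 h2
    have e1 : fderiv ℝ (fun q : ℝ × ℝ => Phi ψ t r q.1 q.2) p (1, 0) = Phi' ψ t r p.1 p.2 := by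
      have hF := (Phi_diff hψ h1 h2).hasFDerivAt
      have hl : HasDerivAt (fun s : ℝ => (s, p.2)) (1, 0) p.1 :=
        (hasDerivAt_id p.1).prodMk (hasDerivAt_const p.1 p.2)
      have h3 := hF.comp_hasDerivAt_of_eq p.1 hl (by rfl)
      exact h3.unique (Phi_s hψ h1 h2 p.2)
    have e2 : fderiv ℝ (fun q : ℝ × ℝ => -ZZ ψ t r q.1 q.2) p (0, 1) = -Phi' ψ t r p.1 p.2 := by
      have hF := (ZZ_diff hψ h1 h2).neg.hasFDerivAt
      have hl : HasDerivAt (fun x : ℝ => (p.1, x)) (0, 1) p.2 :=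
        (hasDerivAt_const p.2 p.1).prodMk (hasDerivAt_id p.2)
      have h3 := hF.comp_hasDerivAt_of_eq p.2 hl (by rfl)
      exact h3.unique (ZZ_x hψ h1 h2 p.2).neg
    rw [e1, e2]
    ring
  have key := integral2_divergence_prod_of_hasFDerivAt_off_countable
    (fun q : ℝ × ℝ => Phi ψ t r q.1 q.2) (fun q : ℝ × ℝ => -ZZ ψ t r q.1 q.2)
    (fun p => fderiv ℝ (fun q : ℝ × ℝ => Phi ψ t r q.1 q.2) p)
    (fun p => fderiv ℝ (fun q : ℝ × ℝ => -ZZ ψ t r q.1 q.2) p) a 0 b 1 ∅ countable_empty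
    (fun p hp => (Phi_diff hψ (hmem p hp).1 (hmem p hp).2).continuousAt.continuousWithinAt)
    (fun p hp => (ZZ_diff hψ (hmem p hp).1 (hmem p hp).2).neg.continuousAt.continuousWithinAt)
    (fun p hp => (Phi_diff hψ (hmem' p hp).1 (hmem' p hp).2).hasFDerivAt)
    (fun p hp => (ZZ_diff hψ (hmem' p hp).1 (hmem' p hp).2).neg.hasFDerivAt)
    ?_
  · have hl : (∫ x in a..b, ∫ y in (0 : ℝ)..1,
        fderiv ℝ (fun q : ℝ × ℝ => Phi ψ t r q.1 q.2) (x, y) (1, 0) +
        fderiv ℝ (fun q : ℝ × ℝ => -ZZ ψ t r q.1 q.2) (x, y) (0, 1)) = 0 := by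
      have e3 : ∀ s ∈ uIcc a b, (∫ y in (0 : ℝ)..1,
        fderiv ℝ (fun q : ℝ × ℝ => Phi ψ t r q.1 q.2) (s, y) (1, 0) +
        fderiv ℝ (fun q : ℝ × ℝ => -ZZ ψ t r q.1 q.2) (s, y) (0, 1)) = 0 := by
        intro s hs
        have h1 : s ≠ t := fun h => ht (h ▸ hs)
        have h2 : s ≠ r := fun h => hr (h ▸ hs)
        have e4 : ∀ y : ℝ, fderiv ℝ (fun q : ℝ × ℝ => Phi ψ t r q.1 q.2) (s, y) (1, 0) +
          fderiv ℝ (fun q : ℝ × ℝ => -ZZ ψ t r q.1 q.2) (s, y) (0, 1) = 0 := fun y =>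
          hzero (s, y) h1 h2
        simp only [e4, intervalIntegral.integral_zero]
      rw [intervalIntegral.integral_congr (g := fun _ => (0 : ℝ)) (fun s hs => e3 s hs),
        intervalIntegral.integral_zero]
    rw [hl] at key
    have hz0 : ∀ s, ZZ ψ t r s 0 = 0 := by
      intro s
      simp [ZZ, u]
    simp only [hz0] at key
    simp only [neg_zero, intervalIntegral.integral_zero, sub_zero, intervalIntegral.integral_neg]
      at key
    unfold XX
    linarith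
  · refine IntegrableOn.congr_fun (f := fun _ => (0 : ℝ)) (by simp) ?_
      (measurableSet_uIcc.prod measurableSet_uIcc)
    intro p hp
    exact (hzero p (hmem p hp).1 (hmem p hp).2).symm

end green2

end Pool.Agent.TH609.NP
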